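import Pool.Agent.Helper76.FT.GoalsG

set_option autoImplicit false

namespace Pool.Agent.Helper59.FT

open Complex Set Filter Topology
open Pool.Agent.Helper76.FT

/-- two-sided orbits of a sequence of bijections -/
lemma two_sided {α : Type} (T : ℤ → (α ≃ α)) (n : ℤ) (x : α) :
    ∃ s : ℤ → α, (∀ k, s (k + 1) = T k (s k)) ∧ s n = x := by
  let F : ℕ → α := fun j => Nat.rec x (fun j y => T (n + j) y) j
  let G : ℕ → α := fun j => Nat.rec x (fun j y => (T (n - j - 1)).symm y) j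
  have hF0 : F 0 = x := rfl
  have hG0 : G 0 = x := rfl
  have hF : ∀ j : ℕ, F (j + 1) = T (n + j) (F j) := fun j => rfl
  have hG : ∀ j : ℕ, G (j + 1) = (T (n - j - 1)).symm (G j) := fun j => rfl
  refine ⟨fun k => if n ≤ k then F (k - n).toNat else G (n - k).toNat, ?_, ?_⟩
  · intro k
    by_cases h1 : n ≤ k
    · have h2 : n ≤ k + 1 := by omega
      have h3 : (k + 1 - n).toNat = (k - n).toNat + 1 := by omega
      have h4 : n + ((k - n).toNat : ℤ) = k := by omega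
      simp only [if_pos h1, if_pos h2, h3, hF, h4]
    · by_cases h2 : n ≤ k + 1
      · have h3 : k + 1 = n := by omega
        have h4 : (k + 1 - n).toNat = 0 := by omega
        have h5 : (n - k).toNat = 0 + 1 := by omega
        have h6 : n - ((0 : ℕ) : ℤ) - 1 = k := by omega
        simp only [if_neg h1, if_pos h2, h4, h5, hF0, hG, h6, hG0, Equiv.apply_symm_apply]
      · have h5 : (n - k).toNat = (n - (k + 1)).toNat + 1 := by omega
        have h6 : n - (((n - (k + 1)).toNat : ℕ) : ℤ) - 1 = k := by omega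
        simp only [if_neg h1, if_neg h2, h5, hG, h6, Equiv.apply_symm_apply]
  · simp [hF0]

/-- a function real on the reals near a real point has a real derivative there -/
lemma real_deriv {f : ℂ → ℂ} {f' : ℂ} {q : ℝ} (hf : HasDerivAt f f' (q : ℂ))
    (hre : ∀ᶠ x : ℝ in 𝓝 q, (f (x : ℂ)).im = 0) : f' = ((f'.re : ℝ) : ℂ) := by
  have h1 : HasDerivAt (fun x : ℝ => f (x : ℂ)) f' q := hf.comp_ofReal
  have h2 : HasDerivAt (fun x : ℝ => (f (x : ℂ)).im) f'.im q := by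
    have := (Complex.imCLM.hasFDerivAt (x := f (q:ℂ))).comp_hasDerivAt q h1
    exact this
  have h3 : HasDerivAt (fun x : ℝ => (f (x : ℂ)).im) 0 q := by
    refine (hasDerivAt_const q (0:ℝ)).congr_of_eventuallyEq ?_
    filter_upwards [hre] with x hx using hx
  have h4 : f'.im = 0 := h2.unique h3
  apply Complex.ext <;> simp [h4]

theorem partials (hR : GReg) (hM : GMom) (S : Sys) (hS : S.Ok) (Y : ℝ) (hY : Y ∈ Icc S.a S.b)
    (q : ℝ) :
    (∃ d e : ℝ, 0 < e ∧ HasDerivAt (fun q' => S.K q' (S.V Y q 1 : ℂ)) (d : ℂ) (q : ℂ) ∧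
        HasDerivAt (fun w' => S.K (q : ℂ) w') (e : ℂ) (S.V Y q 1 : ℂ) ∧
        HasDerivAt (fun q' => S.Ki q' (S.V Y q 0 : ℂ)) ((-(d / e) : ℝ) : ℂ) (q : ℂ) ∧
        HasDerivAt (fun w' => S.Ki (q : ℂ) w') ((1 / e : ℝ) : ℂ) (S.V Y q 0 : ℂ)) := by
  obtain ⟨_, hreg, _, _, _, hopen, _⟩ := hR S hS
  obtain ⟨k0, M, _, _, _, _, hmom⟩ := hM S hS
  have h0mem : (0:ℝ) ∈ Icc (0:ℝ) 1 := ⟨le_refl _, zero_le_one⟩
  have h1mem : (1:ℝ) ∈ Icc (0:ℝ) 1 := ⟨zero_le_one, le_refl _⟩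
  set v : ℝ := S.V Y q 1 with hv
  set u : ℝ := S.V Y q 0 with hu
  have hKu : S.K (q : ℂ) (v : ℂ) = (u : ℂ) := hS.KV Y hY q
  have hz1 : ((q : ℂ), (v : ℂ)) ∈ S.Nb 1 S.r :=
    ⟨(q, v), hreg 1 h1mem q Y hY, by simpa using hS.hr, by simpa using hS.hr⟩
  have hz0 : ((q : ℂ), (u : ℂ)) ∈ S.Nb 0 S.r :=
    ⟨(q, u), hreg 0 h0mem q Y hY, by simpa using hS.hr, by simpa using hS.hr⟩
  have hN1 : S.Nb 1 S.r ∈ 𝓝 ((q : ℂ), (v : ℂ)) := (hopen 1 S.r).mem_nhds hz1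
  have hN0 : S.Nb 0 S.r ∈ 𝓝 ((q : ℂ), (u : ℂ)) := (hopen 0 S.r).mem_nhds hz0
  have hK : HasFDerivAt (fun z : ℂ × ℂ => S.K z.1 z.2)
      (fderiv ℂ (fun z : ℂ × ℂ => S.K z.1 z.2) ((q : ℂ), (v : ℂ))) ((q : ℂ), (v : ℂ)) :=
    (hS.Khol.differentiableAt hN1).hasFDerivAt
  have hKi : HasFDerivAt (fun z : ℂ × ℂ => S.Ki z.1 z.2)
      (fderiv ℂ (fun z : ℂ × ℂ => S.Ki z.1 z.2) ((q : ℂ), (u : ℂ))) ((q : ℂ), (u : ℂ)) :=
    (hS.Kihol.differentiableAt hN0).hasFDerivAt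
  set L := fderiv ℂ (fun z : ℂ × ℂ => S.K z.1 z.2) ((q : ℂ), (v : ℂ)) with hL
  set Li := fderiv ℂ (fun z : ℂ × ℂ => S.Ki z.1 z.2) ((q : ℂ), (u : ℂ)) with hLi
  -- the two embeddings of a line
  have e1 : ∀ a b : ℂ, HasDerivAt (fun q' : ℂ => (q', b)) ((1 : ℂ), (0 : ℂ)) a := fun a b =>
    (hasDerivAt_id a).prodMk (hasDerivAt_const a b)
  have e2 : ∀ a b : ℂ, HasDerivAt (fun w' : ℂ => (a, w')) ((0 : ℂ), (1 : ℂ)) b := fun a b =>
    (hasDerivAt_const b a).prodMk (hasDerivAt_id b)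
  have hKq : HasDerivAt (fun q' => S.K q' (v : ℂ)) (L (1, 0)) (q : ℂ) := by
    have := HasFDerivAt.comp_hasDerivAt (q : ℂ) (f := fun q' : ℂ => (q', (v : ℂ))) hK (e1 q v)
    exact this
  have hKw : HasDerivAt (fun w' => S.K (q : ℂ) w') (L (0, 1)) (v : ℂ) :=
    hK.comp_hasDerivAt (v : ℂ) (e2 q v)
  have hKiq : HasDerivAt (fun q' => S.Ki q' (u : ℂ)) (Li (1, 0)) (q : ℂ) := by
    have := HasFDerivAt.comp_hasDerivAt (q : ℂ) (f := fun q' : ℂ => (q', (u : ℂ))) hKi (e1 q u)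
    exact this
  have hKiw : HasDerivAt (fun w' => S.Ki (q : ℂ) w') (Li (0, 1)) (u : ℂ) :=
    hKi.comp_hasDerivAt (u : ℂ) (e2 q u)
  -- reality
  have hreal : ∀ x y : ℝ, ((x : ℂ), (y : ℂ)) ∈ S.Nb 1 S.r → (S.K (x : ℂ) (y : ℂ)).im = 0 := by
    intro x y hxy
    have := hS.Ksym _ hxy
    simp only [Complex.conj_ofReal] at this
    exact Complex.conj_eq_iff_im.1 this.symm
  have hd : L (1, 0) = (((L (1, 0)).re : ℝ) : ℂ) := by
    apply real_deriv hKq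
    have hc : Tendsto (fun x : ℝ => ((x : ℂ), (v : ℂ))) (𝓝 q) (𝓝 ((q : ℂ), (v : ℂ))) :=
      (Complex.continuous_ofReal.prodMk continuous_const).tendsto q
    filter_upwards [hc hN1] with x hx using hreal x v hx
  have he : L (0, 1) = (((L (0, 1)).re : ℝ) : ℂ) := by
    apply real_deriv hKw
    have hc : Tendsto (fun x : ℝ => ((q : ℂ), (x : ℂ))) (𝓝 v) (𝓝 ((q : ℂ), (v : ℂ))) :=
      (continuous_const.prodMk Complex.continuous_ofReal).tendsto v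
    filter_upwards [hc hN1] with x hx using hreal q x hx
  -- positivity
  have hp1 : HasDerivAt (fun w => S.p 1 (q : ℂ) w)
      (S.κ ((q : ℂ) - ((1 : ℝ) : ℂ) * (v : ℂ)) (v : ℂ)) (v : ℂ) :=
    ((hmom 1 h1mem).2.2 _ hz1).1
  have hp0 : HasDerivAt (fun w => S.p 0 (q : ℂ) w)
      (S.κ ((q : ℂ) - ((0 : ℝ) : ℂ) * (u : ℂ)) (u : ℂ)) (u : ℂ) :=
    ((hmom 0 h0mem).2.2 _ hz0).1
  have hcomp : HasDerivAt (fun w => S.p 0 (q : ℂ) (S.K (q : ℂ) w))
      (S.κ ((q : ℂ) - ((0 : ℝ) : ℂ) * (u : ℂ)) (u : ℂ) * L (0, 1)) (v : ℂ) := by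
    have := HasDerivAt.comp (v : ℂ) (h₂ := fun w => S.p 0 (q : ℂ) w)
      (h := fun w => S.K (q : ℂ) w) (by rw [hKu]; exact hp0) hKw
    exact this
  have hev : (fun w => S.p 0 (q : ℂ) (S.K (q : ℂ) w)) =ᶠ[𝓝 (v : ℂ)] (fun w => S.p 1 (q : ℂ) w) := by
    have hc : Tendsto (fun x : ℂ => ((q : ℂ), x)) (𝓝 (v : ℂ)) (𝓝 ((q : ℂ), (v : ℂ))) :=
      (continuous_const.prodMk continuous_id).tendsto (v : ℂ)
    filter_upwards [hc hN1] with x hx using hS.kick _ hx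
  have hk : S.κ ((q : ℂ) - ((0 : ℝ) : ℂ) * (u : ℂ)) (u : ℂ) * L (0, 1)
      = S.κ ((q : ℂ) - ((1 : ℝ) : ℂ) * (v : ℂ)) (v : ℂ) :=
    hcomp.unique (hp1.congr_of_eventuallyEq hev)
  have hκ : ∀ t ∈ Icc (0:ℝ) 1, ∀ y : ℝ, ((q : ℂ), (y : ℂ)) ∈ S.Nb t S.r →
      ∃ c : ℝ, 0 < c ∧ S.κ ((q : ℂ) - (t : ℂ) * (y : ℂ)) (y : ℂ) = (c : ℂ) := by
    intro t ht y hy
    have hm := hS.path t ht _ hy 1 h1mem
    simp only [Complex.ofReal_one, mul_one, one_mul] at hm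
    have hsym := hS.κsym _ hm
    simp only [map_sub, map_mul, Complex.conj_ofReal] at hsym
    obtain ⟨k1, hk1, hpos⟩ := hS.κpos
    have hge := hpos _ hm
    refine ⟨(S.κ ((q : ℂ) - (t : ℂ) * (y : ℂ)) (y : ℂ)).re, lt_of_lt_of_le hk1 hge, ?_⟩
    exact (Complex.conj_eq_iff_re.1 hsym.symm).symm
  obtain ⟨c1, hc1, hc1'⟩ := hκ 1 h1mem v hz1
  obtain ⟨c0, hc0, hc0'⟩ := hκ 0 h0mem u hz0
  rw [hc1', hc0', he, ← Complex.ofReal_mul] at hk
  have hk' : c0 * (L (0, 1)).re = c1 := by exact_mod_cast hk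
  have hepos : 0 < (L (0, 1)).re := by
    by_contra hneg
    push Not at hneg
    have : c0 * (L (0, 1)).re ≤ 0 := mul_nonpos_of_nonneg_of_nonpos hc0.le hneg
    linarith
  -- the inverse
  have hG : HasFDerivAt (fun z : ℂ × ℂ => (z.1, S.K z.1 z.2))
      ((ContinuousLinearMap.fst ℂ ℂ ℂ).prod L) ((q : ℂ), (v : ℂ)) :=
    (hasFDerivAt_fst).prodMk hK
  have hGi : HasFDerivAt (fun z : ℂ × ℂ => S.Ki z.1 (S.K z.1 z.2))
      (Li.comp ((ContinuousLinearMap.fst ℂ ℂ ℂ).prod L)) ((q : ℂ), (v : ℂ)) := by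
    have := HasFDerivAt.comp ((q : ℂ), (v : ℂ)) (g := fun z : ℂ × ℂ => S.Ki z.1 z.2)
      (f := fun z : ℂ × ℂ => (z.1, S.K z.1 z.2)) (g' := Li) (by simpa only [hKu] using hKi) hG
    exact this
  have hsnd : HasFDerivAt (fun z : ℂ × ℂ => S.Ki z.1 (S.K z.1 z.2))
      (ContinuousLinearMap.snd ℂ ℂ ℂ) ((q : ℂ), (v : ℂ)) := by
    refine (hasFDerivAt_snd).congr_of_eventuallyEq ?_
    filter_upwards [hN1] with z hz using hS.KiK z hz
  have hEq := hGi.unique hsnd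
  have hE01 : Li (0, L (0, 1)) = 1 := by
    have := congrArg (fun A : ℂ × ℂ →L[ℂ] ℂ => A ((0 : ℂ), (1 : ℂ))) hEq
    simpa using this
  have hE10 : Li (1, L (1, 0)) = 0 := by
    have := congrArg (fun A : ℂ × ℂ →L[ℂ] ℂ => A ((1 : ℂ), (0 : ℂ))) hEq
    simpa using this
  have hsc : ∀ c : ℂ, Li (0, c) = c * Li (0, 1) := by
    intro c
    have : ((0 : ℂ), c) = c • ((0 : ℂ), (1 : ℂ)) := by simp
    rw [this, map_smul, smul_eq_mul]
  have hadd : ∀ c : ℂ, Li (1, c) = Li (1, 0) + c * Li (0, 1) := by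
    intro c
    rw [← hsc c, ← map_add]
    simp
  have hene : (((L (0, 1)).re : ℝ) : ℂ) ≠ 0 := by
    exact_mod_cast hepos.ne'
  have hLi01 : Li (0, 1) = ((1 / (L (0, 1)).re : ℝ) : ℂ) := by
    rw [hsc, he] at hE01
    push_cast
    field_simp
    linear_combination hE01
  have hLi10 : Li (1, 0) = ((-((L (1, 0)).re / (L (0, 1)).re) : ℝ) : ℂ) := by
    rw [hadd, hLi01, hd] at hE10
    push_cast at hE10 ⊢
    linear_combination hE10
  refine ⟨(L (1, 0)).re, (L (0, 1)).re, hepos, ?_, ?_, ?_, ?_⟩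
  · rw [← hd]; exact hKq
  · rw [← he]; exact hKw
  · rw [← hLi10]; exact hKiq
  · rw [← hLi01]; exact hKiw

theorem ft_jac : GReg → GMom → GJac := by
  intro hR hM S hS Y hY x
  refine ⟨?_, fun q => partials hR hM S hS Y hY q⟩
  intro n ξ₀ η₀
  obtain ⟨_, _, _, _, _, _, _, _, _, _, _, horb, _⟩ := hR S hS
  have hvel : ∀ k : ℤ, S.V Y (S.orb Y x (k + 1)) 1 = S.vel Y x k := fun k =>
    (horb Y hY x k).2.2.2.1
  choose d e he hKq hKw _ _ using fun q => partials hR hM S hS Y hY q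
  let T : ℤ → (ℝ × ℝ ≃ ℝ × ℝ) := fun k =>
    { toFun := fun s => (s.1 + s.2, d (S.orb Y x (k + 1)) * (s.1 + s.2)
        + e (S.orb Y x (k + 1)) * s.2)
      invFun := fun s => (s.1 - (s.2 - d (S.orb Y x (k + 1)) * s.1) / e (S.orb Y x (k + 1)),
        (s.2 - d (S.orb Y x (k + 1)) * s.1) / e (S.orb Y x (k + 1)))
      left_inv := by
        intro s
        have := (he (S.orb Y x (k + 1))).ne'
        ext
        · simp only []
          field_simp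
          ring
        · simp only []
          field_simp
          ring
      right_inv := by
        intro s
        have := (he (S.orb Y x (k + 1))).ne'
        ext
        · simp only []
          ring
        · simp only []
          field_simp
          ring }
  obtain ⟨s, hs, hsn⟩ := two_sided T n (ξ₀, η₀)
  refine ⟨fun k => (s k).1, fun k => (s k).2, ⟨?_, ?_⟩, ?_, ?_⟩
  · intro k
    simp only [hs k]
    rfl
  · intro k
    have h1 := hKq (S.orb Y x (k + 1))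
    have h2 := hKw (S.orb Y x (k + 1))
    rw [hvel k] at h1 h2
    rw [h1.deriv, h2.deriv]
    have h3 : (s (k + 1)).2 = d (S.orb Y x (k + 1)) * (s (k + 1)).1
        + e (S.orb Y x (k + 1)) * (s k).2 := by
      rw [hs k]
      rfl
    rw [h3]
    push_cast
    ring
  · simp [hsn]
  · simp [hsn]

end Pool.Agent.Helper59.FT
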